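import Pool.Agent.BG73.Star

/-
Assembling of the lower and the upper bound.
-/

set_option autoImplicit false

namespace Pool.Agent.BG73

open scoped Classical
open Pool.Agent.H59.Biclique

/-- the upper bound for all large `n` -/
def UpperStatement : Prop :=
  ∃ (C : ℝ) (n0 : ℕ), ∀ n : ℕ, n0 ≤ n → ∀ (α β : Type) (_ : Fintype α) (_ : Fintype β)
    (G E : Finset (α × β)), Fintype.card α + Fintype.card β ≤ n → E ⊆ G → E.Nonempty →
    (E.card : ℝ) * eta G E ≤ C * (n / (Real.log n * logStar n)) * mu G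

/-- one edge -/
lemma g_pos_small : ∃ r : ℝ, 0 < r ∧ ∀ n : ℕ, 2 ≤ n → r ≤ g n := by
  obtain ⟨G, hGdef⟩ : ∃ G : Finset (Unit × Unit), G = Finset.univ := ⟨_, rfl⟩
  have hmem : ∀ e, e ∈ G := fun e => by rw [hGdef]; exact Finset.mem_univ e
  have hG : G.Nonempty := ⟨((), ()), hmem _⟩
  have h1 : (G.card : ℝ) * (1 / 1) ≤ etaStar G := by
    refine etaStar_ge (Finset.Subset.refl G) hG one_pos ?_
    intro S T Q hB _
    have h2 : Q.card ≤ 1 := by
      have := Finset.card_le_univ Q
      simpa using this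
    have h3 : 1 ≤ S.card := hB.1.card_pos
    have h4 : Q.card ≤ S.card + T.card := by omega
    have h5 : (Q.card : ℝ) ≤ (S.card : ℝ) + T.card := by exact_mod_cast h4
    linarith
  have h2 : (0 : ℝ) < G.card := by exact_mod_cast hG.card_pos
  have h3 : 0 < etaStar G := by linarith
  refine ⟨etaStar G / mu G, div_pos h3 (mu_pos hG), fun n hn => ?_⟩
  refine le_csSup ⟨(n : ℝ) / 2, ?_⟩ ?_
  · rintro x ⟨α, β, _, _, G', hG', -, -, hcard, rfl⟩
    exact ratio_le hG' hcard
  · refine ⟨Unit, Unit, inferInstance, inferInstance, G, hG, fun a => ⟨(), hmem _⟩,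
      fun b => ⟨(), hmem _⟩, ?_, rfl⟩
    simpa using hn

lemma g_le_half (n : ℕ) (hn : 2 ≤ n) : g n ≤ n / 2 := by
  obtain ⟨G, hGdef⟩ : ∃ G : Finset (Unit × Unit), G = Finset.univ := ⟨_, rfl⟩
  have hmem : ∀ e, e ∈ G := fun e => by rw [hGdef]; exact Finset.mem_univ e
  refine csSup_le ⟨_, Unit, Unit, inferInstance, inferInstance, G, ⟨((), ()), hmem _⟩,
    fun a => ⟨(), hmem _⟩, fun b => ⟨(), hmem _⟩, by simpa using hn, rfl⟩ ?_
  rintro x ⟨α, β, _, _, G', hG', -, -, hcard, rfl⟩
  exact ratio_le hG' hcard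

theorem final_of_upper (hU : UpperStatement) :
    ∃ c C : ℝ, 0 < c ∧ 0 < C ∧ ∀ n : ℕ, 2 ≤ n →
      c * (n / (Real.log n * logStar n)) ≤ g n ∧ g n ≤ C * (n / (Real.log n * logStar n)) := by
  obtain ⟨C, n0, hC⟩ := hU
  obtain ⟨r, hr, hrg⟩ := g_pos_small
  refine ⟨min (1 / 37200000) (r / 5), |C| + (Real.log n0 * logStar n0) + 1,
    lt_min (by norm_num) (by positivity), ?_, fun n hn => ?_⟩
  · have : 0 ≤ Real.log n0 * logStar n0 := mul_nonneg (Real.log_natCast_nonneg n0) (Nat.cast_nonneg _)
    positivity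
  have hnr : (2 : ℝ) ≤ n := by exact_mod_cast hn
  have hlog : 0.69 < Real.log n := by
    have h1 := Real.log_le_log (by norm_num) hnr
    linarith [Real.log_two_gt_d9]
  have hL : 1 ≤ logStar n := logStar_pos (by linarith)
  have hLr : (1 : ℝ) ≤ logStar n := by exact_mod_cast hL
  obtain ⟨D, hD⟩ : ∃ D : ℝ, D = n / (Real.log n * logStar n) := ⟨_, rfl⟩
  have hD0 : 0 < D := by rw [hD]; positivity
  rw [← hD]
  constructor
  · by_cases h4 : 4 ≤ n
    · have h1 : n ≤ tow (logStar n + 3) := by
        have h2 := le_tow (logStar n) n le_rfl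
        have h3 : (n : ℝ) ≤ tow (logStar n + 3) := by linarith
        exact_mod_cast h3
      have h2 := g_lower n (logStar n + 3) h4 (by omega) h1
      refine le_trans ?_ h2
      have h3 : 1 / 37200000 * D ≤ n / (9300000 * Real.log n * ((logStar n + 3 : ℕ) : ℝ)) := by
        rw [hD, ← mul_div_assoc, div_le_div_iff₀ (by positivity) (by positivity)]
        have h5 : ((logStar n + 3 : ℕ) : ℝ) ≤ 4 * logStar n := by
          push_cast; linarith
        have h6 : 0 ≤ (n : ℝ) * Real.log n := by positivity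
        calc 1 / 37200000 * (n : ℝ) * (9300000 * Real.log n * ((logStar n + 3 : ℕ) : ℝ))
            = 1 / 4 * (n * Real.log n) * ((logStar n + 3 : ℕ) : ℝ) := by ring
          _ ≤ 1 / 4 * (n * Real.log n) * (4 * logStar n) :=
            mul_le_mul_of_nonneg_left h5 (by positivity)
          _ = _ := by ring
      refine le_trans ?_ h3
      exact mul_le_mul_of_nonneg_right (min_le_left _ _) hD0.le
    · refine le_trans ?_ (hrg n hn)
      have h1 : D ≤ 5 := by
        rw [hD, div_le_iff₀ (by positivity)]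
        have h2 : (n : ℝ) ≤ 3 := by
          have : n ≤ 3 := by omega
          exact_mod_cast this
        nlinarith
      have h2 : min (1 / 37200000) (r / 5) * D ≤ (r / 5) * 5 :=
        mul_le_mul (min_le_right _ _) h1 hD0.le (by positivity)
      linarith
  · by_cases h : n0 ≤ n
    · have hne : ∃ x, x ∈ {x : ℝ | ∃ (α β : Type) (_ : Fintype α) (_ : Fintype β)
          (G : Finset (α × β)),
          G.Nonempty ∧ (∀ a, ∃ b, (a, b) ∈ G) ∧ (∀ b, ∃ a, (a, b) ∈ G) ∧
          Fintype.card α + Fintype.card β ≤ n ∧ x = etaStar G / mu G} := by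
        obtain ⟨G, hGdef⟩ : ∃ G : Finset (Unit × Unit), G = Finset.univ := ⟨_, rfl⟩
        have hmem : ∀ e, e ∈ G := fun e => by rw [hGdef]; exact Finset.mem_univ e
        exact ⟨_, Unit, Unit, inferInstance, inferInstance, G, ⟨((), ()), hmem _⟩,
          fun a => ⟨(), hmem _⟩, fun b => ⟨(), hmem _⟩, by simpa using hn, rfl⟩
      refine csSup_le hne ?_
      rintro x ⟨α, β, _, _, G, hG, -, -, hcard, rfl⟩
      have hmu := mu_pos hG
      rw [div_le_iff₀ hmu]
      refine csSup_le ⟨_, G, subset_rfl, hG, rfl⟩ ?_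
      rintro x ⟨E, hE, hEne, rfl⟩
      refine (hC n h α β _ _ G E hcard hE hEne).trans ?_
      rw [← hD]
      apply mul_le_mul_of_nonneg_right _ hmu.le
      apply mul_le_mul_of_nonneg_right _ hD0.le
      have h1 : 0 ≤ Real.log n0 * logStar n0 :=
        mul_nonneg (Real.log_natCast_nonneg n0) (Nat.cast_nonneg _)
      have := le_abs_self C
      linarith
    · push Not at h
      refine (g_le_half n hn).trans ?_
      have h1 : Real.log n ≤ Real.log n0 :=
        Real.log_le_log (by linarith) (by exact_mod_cast h.le)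
      have h2 : (logStar n : ℝ) ≤ logStar n0 := by
        exact_mod_cast logStar_mono (by exact_mod_cast h.le)
      have h3 : Real.log n * logStar n ≤ Real.log n0 * logStar n0 :=
        mul_le_mul h1 h2 (by positivity) (by linarith)
      have h4 : (n : ℝ) = (Real.log n * logStar n) * D := by
        rw [hD]; field_simp
      have h5 : (Real.log n * logStar n) * D ≤ (Real.log n0 * logStar n0) * D :=
        mul_le_mul_of_nonneg_right h3 hD0.le
      have h6 : 0 ≤ |C| * D := mul_nonneg (abs_nonneg C) hD0.le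
      have h7 : 0 ≤ (Real.log n0 * logStar n0) * D := by
        have : 0 ≤ Real.log n0 * logStar n0 :=
          mul_nonneg (Real.log_natCast_nonneg n0) (Nat.cast_nonneg _)
        positivity
      calc (n : ℝ) / 2 ≤ (Real.log n0 * logStar n0) * D := by linarith
        _ ≤ _ := by
          rw [add_mul, add_mul]
          linarith

end Pool.Agent.BG73
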