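import Mathlib

/-
Kovari-Sos-Turan in counting form.
-/

set_option autoImplicit false

namespace Pool.Agent.BG73

lemma choose_ratio (a d s : ℕ) (q : ℝ) (hq : 0 < q) (h : q * a / 4 + s ≤ (d : ℝ)) :
    (q / 4) ^ s * (a.choose s : ℝ) ≤ (d.choose s : ℝ) := by
  have h1 : ((d.descFactorial s : ℕ) : ℝ) = (s.factorial : ℝ) * (d.choose s : ℝ) := by
    exact_mod_cast Nat.descFactorial_eq_factorial_mul_choose d s
  have h2 : ((a.descFactorial s : ℕ) : ℝ) = (s.factorial : ℝ) * (a.choose s : ℝ) := by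
    exact_mod_cast Nat.descFactorial_eq_factorial_mul_choose a s
  have h3 : ((a.descFactorial s : ℕ) : ℝ) ≤ (a : ℝ) ^ s := by
    exact_mod_cast Nat.descFactorial_le_pow a s
  have h4 : (((d + 1 - s) ^ s : ℕ) : ℝ) ≤ ((d.descFactorial s : ℕ) : ℝ) := by
    exact_mod_cast Nat.pow_sub_le_descFactorial d s
  have ha : (0 : ℝ) ≤ q * a / 4 := by positivity
  have hsd : s ≤ d := by
    have : (s : ℝ) ≤ d := by linarith
    exact_mod_cast this
  have h5 : q * a / 4 ≤ ((d + 1 - s : ℕ) : ℝ) := by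
    rw [Nat.cast_sub (by omega)]
    push_cast
    linarith
  have h6 : (q * a / 4) ^ s ≤ (((d + 1 - s) ^ s : ℕ) : ℝ) := by
    push_cast
    exact pow_le_pow_left₀ ha h5 s
  have h7 : (q / 4) ^ s * (a : ℝ) ^ s = (q * a / 4) ^ s := by
    rw [← mul_pow]; congr 1; ring
  have hf : (0 : ℝ) < s.factorial := by exact_mod_cast Nat.factorial_pos s
  have h8 : (q / 4) ^ s * ((s.factorial : ℝ) * (a.choose s : ℝ)) ≤
      (s.factorial : ℝ) * (d.choose s : ℝ) := by
    rw [← h1, ← h2]
    calc (q / 4) ^ s * ((a.descFactorial s : ℕ) : ℝ) ≤ (q / 4) ^ s * (a : ℝ) ^ s :=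
          mul_le_mul_of_nonneg_left h3 (by positivity)
      _ = (q * a / 4) ^ s := h7
      _ ≤ _ := h6.trans h4
  have h9 : (s.factorial : ℝ) * ((q / 4) ^ s * (a.choose s : ℝ)) ≤
      (s.factorial : ℝ) * (d.choose s : ℝ) := by
    calc _ = (q / 4) ^ s * ((s.factorial : ℝ) * (a.choose s : ℝ)) := by ring
      _ ≤ _ := h8
  exact le_of_mul_le_mul_left h9 hf

lemma kst {α β : Type} [DecidableEq α] [DecidableEq β] (E : Finset (α × β)) (A : Finset α)
    (B : Finset β) (q : ℝ) (s : ℕ) (hq : 0 < q) (hs : 1 ≤ s)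
    (h : q * A.card * B.card ≤ (E ∩ A ×ˢ B).card) (h1 : 4 * (s:ℝ) ≤ q * A.card)
    (h2 : (s:ℝ) ≤ q / 2 * B.card * (q / 4) ^ s) :
    ∃ S ⊆ A, ∃ T ⊆ B, S.card = s ∧ s ≤ T.card ∧ S ×ˢ T ⊆ E := by
  have hsr : (1 : ℝ) ≤ s := by exact_mod_cast hs
  obtain ⟨N, hN⟩ : ∃ N : β → Finset α, ∀ b, N b = A.filter (fun a => (a, b) ∈ E) :=
    ⟨_, fun _ => rfl⟩
  have hNA : ∀ b, (N b).card ≤ A.card := fun b => by
    rw [hN]; exact Finset.card_filter_le _ _
  have hA0 : (0 : ℝ) < A.card := by
    by_contra hcon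
    push Not at hcon
    nlinarith
  have hsum : ((E ∩ A ×ˢ B).card : ℝ) = ∑ b ∈ B, ((N b).card : ℝ) := by
    have h3 : (E ∩ A ×ˢ B).card = ∑ b ∈ B, (N b).card := by
      rw [Finset.inter_comm, ← Finset.filter_mem_eq_inter, Finset.card_filter,
        Finset.sum_product_right]
      refine Finset.sum_congr rfl fun b _ => ?_
      rw [hN, Finset.card_filter]
    exact_mod_cast h3
  obtain ⟨B₁, hB₁⟩ : ∃ B₁ : Finset β, B₁ = B.filter (fun b => q * A.card / 2 ≤ (N b).card) :=
    ⟨_, rfl⟩
  have hB₁card : q / 2 * B.card ≤ B₁.card := by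
    have h3 : ∑ b ∈ B, ((N b).card : ℝ) ≤ A.card * B₁.card + q * A.card / 2 * B.card := by
      calc ∑ b ∈ B, ((N b).card : ℝ)
          ≤ ∑ b ∈ B, ((if q * A.card / 2 ≤ (N b).card then (A.card : ℝ) else 0) +
              q * A.card / 2) := by
            refine Finset.sum_le_sum fun b _ => ?_
            have h4 : ((N b).card : ℝ) ≤ A.card := by exact_mod_cast hNA b
            split_ifs with h5
            · have : 0 ≤ q * A.card / 2 := by positivity
              linarith
            · push Not at h5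
              linarith
        _ = A.card * B₁.card + q * A.card / 2 * B.card := by
            rw [Finset.sum_add_distrib, ← Finset.sum_filter, ← hB₁, Finset.sum_const,
              Finset.sum_const, nsmul_eq_mul, nsmul_eq_mul]
            ring
    rw [hsum] at h
    have h4 : (A.card : ℝ) * (q / 2 * B.card) ≤ A.card * B₁.card := by nlinarith
    exact le_of_mul_le_mul_left h4 hA0
  -- double counting
  have hcount : ∑ S ∈ A.powersetCard s, (((B₁.filter (fun b => S ⊆ N b)).card : ℕ) : ℝ) =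
      ∑ b ∈ B₁, (((N b).card.choose s : ℕ) : ℝ) := by
    have h3 : ∑ S ∈ A.powersetCard s, (B₁.filter (fun b => S ⊆ N b)).card =
        ∑ b ∈ B₁, (N b).card.choose s := by
      simp_rw [Finset.card_filter]
      rw [Finset.sum_comm]
      refine Finset.sum_congr rfl fun b _ => ?_
      rw [← Finset.card_filter, ← Finset.card_powersetCard]
      congr 1
      ext S
      rw [Finset.mem_filter, Finset.mem_powersetCard, Finset.mem_powersetCard]
      constructor
      · rintro ⟨⟨-, h4⟩, h5⟩; exact ⟨h5, h4⟩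
      · rintro ⟨h5, h4⟩
        refine ⟨⟨h5.trans ?_, h4⟩, h5⟩
        rw [hN]; exact Finset.filter_subset _ _
    exact_mod_cast h3
  have hlow : ∀ b ∈ B₁, (q / 4) ^ s * (A.card.choose s : ℝ) ≤ (((N b).card.choose s : ℕ) : ℝ) := by
    intro b hb
    rw [hB₁, Finset.mem_filter] at hb
    apply choose_ratio _ _ _ _ hq
    linarith [hb.2]
  have hsA : s ≤ A.card := by
    have h3 : ∃ b ∈ B₁, True := by
      by_contra hcon
      push Not at hcon
      have : B₁ = ∅ := Finset.eq_empty_of_forall_notMem (fun b hb => hcon b hb)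
      rw [this, Finset.card_empty] at hB₁card
      have h4 : (q / 2 * B.card) * (q / 4) ^ s ≤ 0 := by
        have : (0 : ℝ) < (q / 4) ^ s := by positivity
        push_cast at hB₁card
        nlinarith
      linarith
    obtain ⟨b, hb, -⟩ := h3
    rw [hB₁, Finset.mem_filter] at hb
    have h4 : ((N b).card : ℝ) ≤ A.card := by exact_mod_cast hNA b
    have h5 : (s : ℝ) ≤ A.card := by linarith [hb.2]
    exact_mod_cast h5
  obtain ⟨S, hS, hSb⟩ : ∃ S ∈ A.powersetCard s,
      (q / 4) ^ s * B₁.card ≤ ((B₁.filter (fun b => S ⊆ N b)).card : ℝ) := by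
    by_contra hcon
    push Not at hcon
    have hne : (A.powersetCard s).Nonempty := Finset.powersetCard_nonempty.2 hsA
    have h3 := Finset.sum_lt_sum_of_nonempty hne hcon
    rw [hcount, Finset.sum_const, Finset.card_powersetCard, nsmul_eq_mul] at h3
    have h4 := Finset.sum_le_sum hlow
    rw [Finset.sum_const, nsmul_eq_mul] at h4
    nlinarith
  rw [Finset.mem_powersetCard] at hS
  refine ⟨S, hS.1, B₁.filter (fun b => S ⊆ N b), ?_, hS.2, ?_, ?_⟩
  · refine (Finset.filter_subset _ _).trans ?_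
    rw [hB₁]; exact Finset.filter_subset _ _
  · have h3 : (s : ℝ) ≤ (B₁.filter (fun b => S ⊆ N b)).card := by
      refine h2.trans (le_trans ?_ hSb)
      have : (0 : ℝ) < (q / 4) ^ s := by positivity
      nlinarith
    exact_mod_cast h3
  · intro e he
    rw [Finset.mem_product, Finset.mem_filter] at he
    have h3 := he.2.2 he.1
    rw [hN, Finset.mem_filter] at h3
    exact h3.2

end Pool.Agent.BG73
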