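import Pool.Agent.H59.BicliqueProof

/-
Lower bound n / (log n * logStar n) for the gap g(n).

The easy pairs are the union of L^2 families of random rectangles, one family for every pair of
tower type scales.
-/

set_option autoImplicit false
set_option linter.unusedSectionVars false

namespace Pool.Agent.BG73

open Pool.Agent.H59.Biclique

/-- towers of twos -/
def tow : ℕ → ℕ
  | 0 => 1
  | (j + 1) => 2 ^ tow j

lemma two_pow_le_tow (j : ℕ) : 2 ^ j ≤ tow j := by
  induction j with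
  | zero => simp [tow]
  | succ j ih =>
    rw [tow]
    exact Nat.pow_le_pow_right (by norm_num) ((Nat.lt_two_pow_self (n := j)).trans_le ih)

lemma one_le_tow (j : ℕ) : 1 ≤ tow j := le_trans Nat.one_le_two_pow (two_pow_le_tow j)

/-- the number of points of `A` met by the transversal `f` -/
def hits {m s : ℕ} (A : Finset (Fin m × Fin s)) (f : Fin m → Fin s) : ℕ :=
  (Finset.univ.filter (fun j => (j, f j) ∈ A)).card

lemma moment {m s : ℕ} (hs : 0 < s) (A : Finset (Fin m × Fin s)) :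
    ∑ f : Fin m → Fin s, (1 / 2 : ℝ) ^ (hits A f) ≤
      (s : ℝ) ^ m * Real.exp (-(A.card / (2 * s))) := by
  have hsr : (0 : ℝ) < s := by exact_mod_cast hs
  have h1 : ∀ f : Fin m → Fin s, (1 / 2 : ℝ) ^ (hits A f) =
      ∏ j, (if (j, f j) ∈ A then (1 / 2 : ℝ) else 1) := by
    intro f
    rw [hits, Finset.prod_ite, Finset.prod_const, Finset.prod_const_one, mul_one]
  simp_rw [h1]
  have h2 := Finset.prod_univ_sum (fun _ : Fin m => (Finset.univ : Finset (Fin s)))
     (fun j c => if (j, c) ∈ A then (1 / 2 : ℝ) else 1)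
  rw [Fintype.piFinset_univ] at h2
  rw [← h2]
  obtain ⟨a, ha⟩ : ∃ a : Fin m → ℕ, ∀ j, a j = (Finset.univ.filter (fun c => (j, c) ∈ A)).card :=
    ⟨_, fun _ => rfl⟩
  have h3 : ∀ j, ∑ c : Fin s, (if (j, c) ∈ A then (1 / 2 : ℝ) else 1) ≤
      s * Real.exp (-(a j / (2 * s))) := by
    intro j
    have h4 : ∑ c : Fin s, (if (j, c) ∈ A then (1 / 2 : ℝ) else 1) = s - a j / 2 := by
      have h5 : ∀ c : Fin s, (if (j, c) ∈ A then (1 / 2 : ℝ) else 1) =
          1 - (1 / 2) * (if (j, c) ∈ A then (1 : ℝ) else 0) := by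
        intro c; split_ifs <;> norm_num
      simp_rw [h5]
      rw [Finset.sum_sub_distrib, ← Finset.mul_sum, Finset.sum_const, Finset.card_univ,
        Fintype.card_fin, nsmul_eq_mul, mul_one, ha, Finset.card_filter]
      push_cast
      ring
    rw [h4]
    have h6 := Real.add_one_le_exp (-((a j : ℝ) / (2 * s)))
    have h7 : (s : ℝ) - a j / 2 = s * (-((a j : ℝ) / (2 * s)) + 1) := by field_simp; ring
    rw [h7]
    exact mul_le_mul_of_nonneg_left h6 hsr.le
  have h8 : (A.card : ℝ) = ∑ j, (a j : ℝ) := by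
    have h9 : A.card = ∑ j, a j := by
      simp_rw [ha, Finset.card_filter]
      rw [← Fintype.sum_prod_type' (fun j c => if (j, c) ∈ A then 1 else 0), ← Finset.card_filter]
      congr 1
      ext x
      simp
    exact_mod_cast h9
  calc ∏ j, ∑ c : Fin s, (if (j, c) ∈ A then (1 / 2 : ℝ) else 1)
      ≤ ∏ j : Fin m, (s * Real.exp (-(a j / (2 * s)))) := by
        refine Finset.prod_le_prod (fun j _ => ?_) (fun j _ => h3 j)
        refine Finset.sum_nonneg fun c _ => ?_
        split_ifs <;> norm_num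
    _ = (s : ℝ) ^ m * Real.exp (-(A.card / (2 * s))) := by
        rw [Finset.prod_mul_distrib, Finset.prod_const, Finset.card_univ, Fintype.card_fin,
          ← Real.exp_sum, Finset.sum_neg_distrib, ← Finset.sum_div, h8]

/-- a sequence of transversals such that every large set is hit well by more than half of them -/
lemma exists_trans {m s : ℕ} (hs : 0 < s) (K : ℕ) (z : ℝ) (hz : 0 ≤ z)
    (hK : 16 * s * (z + 2) ≤ (K : ℝ)) :
    ∃ x : Fin K → (Fin m → Fin s), ∀ A : Finset (Fin m × Fin s), 16 * s ≤ A.card →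
      ((m * s : ℕ) : ℝ) * Real.exp (-z) ≤ A.card →
      2 * (Finset.univ.filter (fun k => 4 * s * hits A (x k) < A.card)).card < K := by
  have hsr : (0 : ℝ) < s := by exact_mod_cast hs
  have hsne : Nonempty (Fin s) := ⟨⟨0, hs⟩⟩
  obtain ⟨V, hV⟩ : ∃ V : ℕ, V = m * s := ⟨_, rfl⟩
  rw [← hV]
  obtain ⟨y, hy⟩ : ∃ y : ℝ, y = Real.exp (-z) := ⟨_, rfl⟩
  rw [← hy]
  have hy0 : 0 < y := by rw [hy]; exact Real.exp_pos _
  obtain ⟨h, hh⟩ : ∃ h : Finset (Fin m × Fin s) → (Fin m → Fin s) → ℝ, ∀ A f, h A f =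
      1 + Real.exp (A.card / (2 * s)) * (1 / 2 : ℝ) ^ (hits A f) := ⟨_, fun _ _ => rfl⟩
  obtain ⟨ρ, hρ⟩ : ∃ ρ : Finset (Fin m × Fin s) → ℝ, ∀ A, ρ A =
      (1 / 2 : ℝ) ^ K * y ^ A.card * Real.exp (-(y * V)) := ⟨_, fun _ => rfl⟩
  have hh1 : ∀ A f, 1 ≤ h A f := by
    intro A f
    rw [hh]
    have : 0 < Real.exp ((A.card : ℝ) / (2 * s)) * (1 / 2 : ℝ) ^ (hits A f) := by positivity
    linarith
  have hρ0 : ∀ A, 0 < ρ A := by
    intro A; rw [hρ]; positivity
  obtain ⟨W, hW⟩ : ∃ W : (Fin K → (Fin m → Fin s)) → ℝ, ∀ x, W x =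
      ∑ A : Finset (Fin m × Fin s), ρ A * ∏ k, h A (x k) := ⟨_, fun _ => rfl⟩
  have hcard : (Fintype.card (Fin K → (Fin m → Fin s)) : ℝ) = ((s : ℝ) ^ m) ^ K := by
    rw [Fintype.card_fun, Fintype.card_fun, Fintype.card_fin, Fintype.card_fin, Fintype.card_fin]
    push_cast; rfl
  have hsum : ∑ x, W x ≤ (Fintype.card (Fin K → (Fin m → Fin s)) : ℝ) * 1 := by
    rw [hcard, mul_one, Finset.sum_congr rfl (fun x _ => hW x), Finset.sum_comm]
    have h1 : ∀ A : Finset (Fin m × Fin s), ∑ x : Fin K → (Fin m → Fin s),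
        ρ A * ∏ k, h A (x k) ≤ ((s : ℝ) ^ m) ^ K * (y ^ A.card * Real.exp (-(y * V))) := by
      intro A
      rw [← Finset.mul_sum]
      have h2 := Finset.prod_univ_sum
        (fun _ : Fin K => (Finset.univ : Finset (Fin m → Fin s))) (fun _ f => h A f)
      rw [Fintype.piFinset_univ, Finset.prod_const, Finset.card_univ, Fintype.card_fin] at h2
      rw [← h2]
      have h3 : ∑ f : Fin m → Fin s, h A f ≤ 2 * (s : ℝ) ^ m := by
        simp_rw [hh]
        rw [Finset.sum_add_distrib, Finset.sum_const, Finset.card_univ, nsmul_eq_mul, mul_one,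
          ← Finset.mul_sum, Fintype.card_fun, Fintype.card_fin, Fintype.card_fin]
        have h4 := mul_le_mul_of_nonneg_left (moment hs A)
          (Real.exp_pos ((A.card : ℝ) / (2 * s))).le
        have h5 : Real.exp ((A.card : ℝ) / (2 * s)) *
            ((s : ℝ) ^ m * Real.exp (-(A.card / (2 * s)))) = (s : ℝ) ^ m := by
          rw [mul_comm ((s : ℝ) ^ m), ← mul_assoc, ← Real.exp_add, add_neg_cancel, Real.exp_zero,
            one_mul]
        rw [h5] at h4
        push_cast
        linarith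
      have h4 : (0 : ℝ) ≤ ∑ f : Fin m → Fin s, h A f :=
        Finset.sum_nonneg fun f _ => zero_le_one.trans (hh1 A f)
      have h5 := pow_le_pow_left₀ h4 h3 K
      have h6 : ρ A * (∑ f : Fin m → Fin s, h A f) ^ K ≤ ρ A * (2 * (s : ℝ) ^ m) ^ K :=
        mul_le_mul_of_nonneg_left h5 (hρ0 A).le
      refine h6.trans (le_of_eq ?_)
      rw [hρ, mul_pow]
      have h7 : (1 / 2 : ℝ) ^ K * 2 ^ K = 1 := by
        rw [← mul_pow]; norm_num
      calc (1 / 2 : ℝ) ^ K * y ^ A.card * Real.exp (-(y * V)) * (2 ^ K * ((s : ℝ) ^ m) ^ K)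
          = ((1 / 2 : ℝ) ^ K * 2 ^ K) *
            (((s : ℝ) ^ m) ^ K * (y ^ A.card * Real.exp (-(y * V)))) := by ring
        _ = _ := by rw [h7, one_mul]
    refine (Finset.sum_le_sum fun A _ => h1 A).trans ?_
    rw [← Finset.mul_sum, ← Finset.sum_mul]
    have h2 : ∑ A : Finset (Fin m × Fin s), y ^ A.card = (1 + y) ^ V := by
      have := Finset.sum_pow_mul_eq_add_pow y 1 (Finset.univ : Finset (Fin m × Fin s))
      simp only [one_pow, mul_one, Finset.card_univ, Fintype.card_prod, Fintype.card_fin,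
        Finset.powerset_univ] at this
      rw [this, add_comm, hV]
    have h3 : (1 + y) ^ V ≤ Real.exp (y * V) := by
      have h4 : 1 + y ≤ Real.exp y := by
        have := Real.add_one_le_exp y
        linarith
      calc (1 + y) ^ V ≤ (Real.exp y) ^ V := pow_le_pow_left₀ (by positivity) h4 V
        _ = Real.exp (y * V) := by
          rw [← Real.exp_nat_mul]; congr 1; ring
    have h5 : (∑ A : Finset (Fin m × Fin s), y ^ A.card) * Real.exp (-(y * V)) ≤ 1 := by
      rw [h2]
      calc (1 + y) ^ V * Real.exp (-(y * V)) ≤ Real.exp (y * V) * Real.exp (-(y * V)) :=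
            mul_le_mul_of_nonneg_right h3 (Real.exp_pos _).le
        _ = 1 := by rw [← Real.exp_add, add_neg_cancel, Real.exp_zero]
    calc ((s : ℝ) ^ m) ^ K * ((∑ A : Finset (Fin m × Fin s), y ^ A.card) *
          Real.exp (-(y * V))) ≤ ((s : ℝ) ^ m) ^ K * 1 :=
          mul_le_mul_of_nonneg_left h5 (by positivity)
      _ = _ := mul_one _
  obtain ⟨x, hx⟩ := exists_le_avg W 1 hsum
  refine ⟨x, fun A hA1 hA2 => ?_⟩
  by_contra hcon
  push Not at hcon
  obtain ⟨b, hb⟩ : ∃ b : ℕ, b =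
    (Finset.univ.filter (fun k => 4 * s * hits A (x k) < A.card)).card := ⟨_, rfl⟩
  rw [← hb] at hcon
  have hterm : ρ A * ∏ k, h A (x k) ≤ 1 := by
    refine le_trans ?_ hx
    rw [hW]
    refine Finset.single_le_sum (f := fun A => ρ A * ∏ k, h A (x k)) (fun A _ => ?_)
      (Finset.mem_univ A)
    exact mul_nonneg (hρ0 A).le (Finset.prod_nonneg fun k _ => zero_le_one.trans (hh1 A _))
  have hl2 : Real.log 2 < 0.7 := by linarith [Real.log_two_lt_d9]
  have hl2' : 0 < Real.log 2 := Real.log_pos (by norm_num)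
  obtain ⟨a, ha⟩ : ∃ a : ℝ, a = (A.card : ℝ) := ⟨_, rfl⟩
  have ha16 : 16 * s ≤ a := by rw [ha]; exact_mod_cast hA1
  have ha0 : 0 < a := by nlinarith
  have hbad : ∀ k, 4 * s * hits A (x k) < A.card → Real.exp (a / (4 * s)) ≤ h A (x k) := by
    intro k hk
    rw [hh, ← ha]
    have h1 : (1 / 2 : ℝ) ^ (hits A (x k)) = Real.exp (-(Real.log 2 * hits A (x k))) := by
      rw [Real.exp_neg, mul_comm, Real.exp_nat_mul, Real.exp_log (by norm_num)]
      rw [one_div, inv_pow]
    have h2 : (hits A (x k) : ℝ) ≤ a / (4 * s) := by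
      rw [le_div_iff₀ (by positivity)]
      have : ((4 * s * hits A (x k) : ℕ) : ℝ) < A.card := by exact_mod_cast hk
      push_cast at this
      rw [ha]; linarith
    rw [h1, ← Real.exp_add]
    have h3 : a / (4 * s) ≤ a / (2 * s) + -(Real.log 2 * hits A (x k)) := by
      have e : a / (2 * s) = 2 * (a / (4 * s)) := by field_simp; ring
      rw [e]
      have h4 : 0 ≤ a / (4 * s) := by positivity
      nlinarith
    have := Real.exp_le_exp.2 h3
    linarith
  have hprod : Real.exp (a / (4 * s)) ^ b ≤ ∏ k, h A (x k) := by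
    rw [hb, ← Finset.prod_const]
    calc ∏ _k ∈ Finset.univ.filter (fun k => 4 * s * hits A (x k) < A.card),
          Real.exp (a / (4 * s))
        ≤ ∏ k ∈ Finset.univ.filter (fun k => 4 * s * hits A (x k) < A.card), h A (x k) :=
          Finset.prod_le_prod (fun k _ => (Real.exp_pos _).le)
            (fun k hk => hbad k (Finset.mem_filter.1 hk).2)
      _ ≤ ∏ k, h A (x k) :=
          Finset.prod_le_prod_of_subset_of_one_le (Finset.filter_subset _ _)
            (fun k _ => zero_le_one.trans (hh1 A _)) (fun k _ _ => hh1 A _)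
  have hρA : Real.exp (-(Real.log 2 * K) - z * a - a) ≤ ρ A := by
    rw [hρ, hy]
    have h1 : (1 / 2 : ℝ) ^ K = Real.exp (-(Real.log 2 * K)) := by
      rw [Real.exp_neg, mul_comm, Real.exp_nat_mul, Real.exp_log (by norm_num)]
      rw [one_div, inv_pow]
    have h2 : Real.exp (-z) ^ A.card = Real.exp (-(z * a)) := by
      rw [← Real.exp_nat_mul, ha]; congr 1; ring
    rw [h1, h2, ← Real.exp_add, ← Real.exp_add]
    apply Real.exp_le_exp.2
    rw [← hy]
    have h3 : y * V ≤ a := by rw [ha, mul_comm]; exact hA2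
    linarith
  have hfin : 1 < ρ A * ∏ k, h A (x k) := by
    have h1 : Real.exp (-(Real.log 2 * K) - z * a - a) * Real.exp (a / (4 * s)) ^ b ≤
        ρ A * ∏ k, h A (x k) :=
      mul_le_mul hρA hprod (by positivity) (hρ0 A).le
    refine lt_of_lt_of_le ?_ h1
    rw [← Real.exp_nat_mul, ← Real.exp_add, Real.one_lt_exp_iff]
    have hbK : (K : ℝ) ≤ 2 * b := by exact_mod_cast hcon
    have h2 : (K : ℝ) * (a / (8 * s)) ≤ b * (a / (4 * s)) := by
      have e : b * (a / (4 * s)) = (2 * b) * (a / (8 * s)) := by field_simp; ring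
      rw [e]
      exact mul_le_mul_of_nonneg_right hbK (by positivity)
    have h3 : 1 ≤ a / (16 * s) := by rw [one_le_div (by positivity)]; exact ha16
    have e : a / (8 * s) = 2 * (a / (16 * s)) := by field_simp; ring
    rw [e] at h2
    have h4 : a * (z + 2) ≤ K * (a / (16 * s)) := by
      rw [mul_div_assoc', le_div_iff₀ (by positivity)]
      nlinarith
    have hK0 : (0 : ℝ) ≤ K := Nat.cast_nonneg K
    have h5 : Real.log 2 * K ≤ K * (a / (16 * s)) := by nlinarith
    nlinarith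
  linarith

/-- the version on the vertex set `Fin N` -/
lemma exists_sets {N s : ℕ} (hs : 0 < s) (hsN : s ≤ N) (K : ℕ) (z : ℝ) (hz : 0 ≤ z)
    (hK : 16 * s * (z + 3) ≤ (K : ℝ)) :
    ∃ S : Fin K → Finset (Fin N), (∀ k, (S k).card ≤ N / s + 1) ∧
      ∀ A : Finset (Fin N), 16 * s ≤ A.card → (N : ℝ) * Real.exp (-z) ≤ A.card →
      2 * (Finset.univ.filter (fun k => 4 * s * (A ∩ S k).card < A.card)).card < K := by
  obtain ⟨m, hm⟩ : ∃ m : ℕ, m = N / s + 1 := ⟨_, rfl⟩
  have hlt : ∀ v : Fin N, (v : ℕ) / s < m := by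
    intro v
    rw [hm]
    exact Nat.lt_succ_of_le (Nat.div_le_div_right v.2.le)
  obtain ⟨em, hem⟩ : ∃ em : Fin N → Fin m × Fin s, ∀ v, em v =
      (⟨(v : ℕ) / s, hlt v⟩, ⟨(v : ℕ) % s, Nat.mod_lt _ hs⟩) := ⟨_, fun _ => rfl⟩
  have hinj : Function.Injective em := by
    intro v w hvw
    rw [hem, hem, Prod.mk.injEq, Fin.mk.injEq, Fin.mk.injEq] at hvw
    apply Fin.ext
    rw [← Nat.div_add_mod (v : ℕ) s, ← Nat.div_add_mod (w : ℕ) s, hvw.1, hvw.2]
  obtain ⟨x, hx⟩ := exists_trans (m := m) hs K (z + 1) (by linarith) (by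
    have : z + 1 + 2 = z + 3 := by ring
    rw [this]; exact hK)
  obtain ⟨S, hS⟩ : ∃ S : Fin K → Finset (Fin N), ∀ k, S k =
      Finset.univ.filter (fun v => (em v).2 = x k (em v).1) := ⟨_, fun _ => rfl⟩
  refine ⟨S, fun k => ?_, fun A hA1 hA2 => ?_⟩
  · rw [← hm]
    have h1 : (S k).card ≤ (Finset.univ : Finset (Fin m)).card := by
      refine Finset.card_le_card_of_injOn (fun v => (em v).1) (fun v _ => Finset.mem_univ _) ?_
      intro v hv w hw hvw
      rw [hS, Finset.mem_coe, Finset.mem_filter] at hv hw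
      apply hinj
      refine Prod.ext hvw ?_
      rw [hv.2, hw.2]
      simp only at hvw
      rw [hvw]
    rwa [Finset.card_univ, Fintype.card_fin] at h1
  · have hc : (A.image em).card = A.card := Finset.card_image_of_injective A hinj
    have hhits : ∀ k, hits (A.image em) (x k) = (A ∩ S k).card := by
      intro k
      rw [hits]
      symm
      refine Finset.card_bij (fun v _ => (em v).1) ?_ ?_ ?_
      · intro v hv
        rw [Finset.mem_inter, hS, Finset.mem_filter] at hv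
        rw [Finset.mem_filter]
        refine ⟨Finset.mem_univ _, ?_⟩
        rw [← hv.2.2]
        exact Finset.mem_image_of_mem em hv.1
      · intro v hv w hw hvw
        rw [Finset.mem_inter, hS, Finset.mem_filter] at hv hw
        apply hinj
        refine Prod.ext hvw ?_
        rw [hv.2.2, hw.2.2, hvw]
      · intro j hj
        rw [Finset.mem_filter, Finset.mem_image] at hj
        obtain ⟨v, hv, hvj⟩ := hj.2
        refine ⟨v, ?_, ?_⟩
        · rw [Finset.mem_inter, hS, Finset.mem_filter]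
          refine ⟨hv, Finset.mem_univ _, ?_⟩
          rw [hvj]
        · rw [hvj]
    have h1 := hx (A.image em) (by rw [hc]; exact hA1) (by
      rw [hc]
      refine le_trans ?_ hA2
      have h2 : ((m * s : ℕ) : ℝ) ≤ 2 * N := by
        have h3 : N / s * s ≤ N := Nat.div_mul_le_self N s
        have h4 : m * s ≤ 2 * N := by
          rw [hm, add_mul, one_mul]; omega
        exact_mod_cast h4
      have h5 : Real.exp (-(z + 1)) ≤ Real.exp (-z) / 2 := by
        rw [show -(z + 1) = -z - 1 by ring, Real.exp_sub]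
        refine div_le_div_of_nonneg_left (Real.exp_pos _).le (by norm_num) ?_
        linarith [Real.exp_one_gt_d9]
      calc ((m * s : ℕ) : ℝ) * Real.exp (-(z + 1)) ≤ (2 * N) * (Real.exp (-z) / 2) :=
            mul_le_mul h2 h5 (Real.exp_pos _).le (by positivity)
        _ = _ := by ring)
    rw [hc] at h1
    simp_rw [hhits] at h1
    exact h1

/-- one family of random rectangles -/
lemma exists_rects {N s t : ℕ} (hs : 0 < s) (ht : 0 < t) (hsN : s ≤ N) (htN : t ≤ N) (K : ℕ)
    (z w : ℝ) (hz : 0 ≤ z) (hw : 0 ≤ w) (hK : 16 * s * (z + 3) ≤ (K : ℝ))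
    (hK' : 16 * t * (w + 3) ≤ (K : ℝ)) :
    ∃ P : Finset (Fin N × Fin N), P.card ≤ K * ((N / s + 1) * (N / t + 1)) ∧
      ∀ A B : Finset (Fin N), 16 * s ≤ A.card → (N : ℝ) * Real.exp (-z) ≤ A.card →
        16 * t ≤ B.card → (N : ℝ) * Real.exp (-w) ≤ B.card →
        ∃ A' ⊆ A, ∃ B' ⊆ B, (∀ a ∈ A', ∀ b ∈ B', (a, b) ∈ P) ∧
          A.card ≤ 4 * s * A'.card ∧ B.card ≤ 4 * t * B'.card := by
  obtain ⟨S, hS1, hS2⟩ := exists_sets hs hsN K z hz hK
  obtain ⟨T, hT1, hT2⟩ := exists_sets ht htN K w hw hK'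
  refine ⟨Finset.univ.biUnion (fun k => S k ×ˢ T k), ?_, ?_⟩
  · refine Finset.card_biUnion_le.trans ?_
    calc ∑ k, (S k ×ˢ T k).card ≤ ∑ _k : Fin K, (N / s + 1) * (N / t + 1) := by
          refine Finset.sum_le_sum fun k _ => ?_
          rw [Finset.card_product]
          exact Nat.mul_le_mul (hS1 k) (hT1 k)
      _ = _ := by rw [Finset.sum_const, Finset.card_univ, Fintype.card_fin, smul_eq_mul]
  · intro A B hA1 hA2 hB1 hB2
    have h1 := hS2 A hA1 hA2
    have h2 := hT2 B hB1 hB2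
    obtain ⟨k, hk⟩ : ∃ k, k ∉ (Finset.univ.filter (fun k => 4 * s * (A ∩ S k).card < A.card)) ∪
        (Finset.univ.filter (fun k => 4 * t * (B ∩ T k).card < B.card)) := by
      by_contra hcon
      push Not at hcon
      have h3 : (Finset.univ : Finset (Fin K)).card ≤
        ((Finset.univ.filter (fun k => 4 * s * (A ∩ S k).card < A.card)) ∪
        (Finset.univ.filter (fun k => 4 * t * (B ∩ T k).card < B.card))).card :=
        Finset.card_le_card (fun k _ => hcon k)
      rw [Finset.card_univ, Fintype.card_fin] at h3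
      have h4 := h3.trans (Finset.card_union_le _ _)
      omega
    rw [Finset.mem_union, not_or, Finset.mem_filter, Finset.mem_filter] at hk
    push Not at hk
    refine ⟨A ∩ S k, Finset.inter_subset_left, B ∩ T k, Finset.inter_subset_left, ?_,
      hk.1 (Finset.mem_univ _), hk.2 (Finset.mem_univ _)⟩
    intro a ha b hb
    rw [Finset.mem_biUnion]
    exact ⟨k, Finset.mem_univ _, Finset.mem_product.2
      ⟨(Finset.mem_inter.1 ha).2, (Finset.mem_inter.1 hb).2⟩⟩

/-- the family for the scales `i` (rows) and `j` (columns) -/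
lemma exists_scale (N Λ i j : ℕ) (hN : 0 < N) (hΛ : 0 < Λ) :
    ∃ P : Finset (Fin N × Fin N),
      (P.card : ℝ) ≤ 320 * N ^ 2 / Λ * (1 / tow i + 1 / tow j) ∧
      ∀ A B : Finset (Fin N), 16 * (Λ * tow j ^ 2) ≤ A.card → N ≤ tow (i + 1) ^ 2 * A.card →
        16 * (Λ * tow i ^ 2) ≤ B.card → N ≤ tow (j + 1) ^ 2 * B.card →
        ∃ A' ⊆ A, ∃ B' ⊆ B, (∀ a ∈ A', ∀ b ∈ B', (a, b) ∈ P) ∧
          A.card ≤ 4 * (Λ * tow j ^ 2) * A'.card ∧ B.card ≤ 4 * (Λ * tow i ^ 2) * B'.card := by
  have hi := one_le_tow i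
  have hj := one_le_tow j
  have hir : (1 : ℝ) ≤ tow i := by exact_mod_cast hi
  have hjr : (1 : ℝ) ≤ tow j := by exact_mod_cast hj
  have hΛr : (1 : ℝ) ≤ Λ := by exact_mod_cast hΛ
  have hNr : (1 : ℝ) ≤ N := by exact_mod_cast hN
  by_cases hbig : Λ * tow j ^ 2 ≤ N ∧ Λ * tow i ^ 2 ≤ N
  · obtain ⟨hs, ht⟩ := hbig
    have hs0 : 0 < Λ * tow j ^ 2 := by positivity
    have ht0 : 0 < Λ * tow i ^ 2 := by positivity
    have hexp : ∀ l : ℕ, ∀ A : Finset (Fin N), N ≤ tow (l + 1) ^ 2 * A.card →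
        (N : ℝ) * Real.exp (-(2 * tow l)) ≤ A.card := by
      intro l A hA
      have h1 : (N : ℝ) ≤ (tow (l + 1) : ℝ) ^ 2 * A.card := by exact_mod_cast hA
      have h2 : ((tow (l + 1) : ℝ)) ^ 2 ≤ Real.exp (2 * tow l) := by
        rw [tow]
        push_cast
        have h3 : (2 : ℝ) ^ tow l ≤ Real.exp (tow l) := by
          have h4 : (2 : ℝ) ≤ Real.exp 1 := by linarith [Real.exp_one_gt_d9]
          calc (2 : ℝ) ^ tow l ≤ (Real.exp 1) ^ tow l := pow_le_pow_left₀ (by norm_num) h4 _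
            _ = _ := by rw [← Real.exp_nat_mul, mul_one]
        calc ((2 : ℝ) ^ tow l) ^ 2 ≤ (Real.exp (tow l)) ^ 2 :=
              pow_le_pow_left₀ (by positivity) h3 _
          _ = Real.exp (2 * tow l) := by rw [← Real.exp_nat_mul]; push_cast; rfl
      rw [Real.exp_neg, ← div_eq_mul_inv, div_le_iff₀ (Real.exp_pos _)]
      calc (N : ℝ) ≤ (tow (l + 1) : ℝ) ^ 2 * A.card := h1
        _ ≤ Real.exp (2 * tow l) * A.card := mul_le_mul_of_nonneg_right h2 (Nat.cast_nonneg _)
        _ = _ := mul_comm _ _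
    obtain ⟨P, hP1, hP2⟩ := exists_rects hs0 ht0 hs ht
      (80 * Λ * (tow j ^ 2 * tow i + tow i ^ 2 * tow j)) (2 * tow i) (2 * tow j)
      (by positivity) (by positivity) (by
        push_cast
        have : (0 : ℝ) ≤ (Λ : ℝ) * (tow j) ^ 2 := by positivity
        have h1 : (0 : ℝ) ≤ (Λ : ℝ) * ((tow i) ^ 2 * tow j) := by positivity
        nlinarith) (by
        push_cast
        have : (0 : ℝ) ≤ (Λ : ℝ) * (tow i) ^ 2 := by positivity
        have h1 : (0 : ℝ) ≤ (Λ : ℝ) * ((tow j) ^ 2 * tow i) := by positivity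
        nlinarith)
    refine ⟨P, ?_, fun A B h1 h2 h3 h4 => hP2 A B h1 (hexp i A h2) h3 (hexp j B h4)⟩
    have h1 : ∀ u : ℕ, 0 < u → u ≤ N → ((N / u + 1 : ℕ) : ℝ) ≤ 2 * N / u := by
      intro u hu huN
      have hur : (0 : ℝ) < u := by exact_mod_cast hu
      have huNr : (u : ℝ) ≤ N := by exact_mod_cast huN
      push_cast
      have h2 : ((N / u : ℕ) : ℝ) ≤ (N : ℝ) / u := Nat.cast_div_le
      have h3 : (1 : ℝ) ≤ N / u := by rw [one_le_div hur]; exact huNr
      calc ((N / u : ℕ) : ℝ) + 1 ≤ N / u + N / u := by linarith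
        _ = _ := by ring
    have h2 : (P.card : ℝ) ≤ ((80 * Λ * (tow j ^ 2 * tow i + tow i ^ 2 * tow j) : ℕ) : ℝ) *
        (((N / (Λ * tow j ^ 2) + 1 : ℕ) : ℝ) * ((N / (Λ * tow i ^ 2) + 1 : ℕ) : ℝ)) := by
      exact_mod_cast hP1
    refine h2.trans ?_
    have h3 := h1 _ hs0 hs
    have h4 := h1 _ ht0 ht
    have h5 := mul_le_mul h3 h4 (Nat.cast_nonneg _) (by positivity)
    refine (mul_le_mul_of_nonneg_left h5 (Nat.cast_nonneg _)).trans (le_of_eq ?_)
    push_cast
    have e1 : (tow i : ℝ) ≠ 0 := by positivity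
    have e2 : (tow j : ℝ) ≠ 0 := by positivity
    have e3 : (Λ : ℝ) ≠ 0 := by positivity
    field_simp
    ring
  · refine ⟨∅, ?_, ?_⟩
    · rw [Finset.card_empty]
      push_cast
      positivity
    · intro A B h1 _ h3 _
      exfalso
      apply hbig
      have hA : A.card ≤ N := by
        have := Finset.card_le_univ A
        rwa [Fintype.card_fin] at this
      have hB : B.card ≤ N := by
        have := Finset.card_le_univ B
        rwa [Fintype.card_fin] at this
      constructor <;> omega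

lemma sum_inv_tow (L : ℕ) : ∑ i ∈ Finset.range L, (1 / (tow i : ℝ)) ≤ 2 := by
  have h1 : ∑ i ∈ Finset.range L, (1 / (tow i : ℝ)) ≤ ∑ i ∈ Finset.range L, (1 / 2 : ℝ) ^ i := by
    refine Finset.sum_le_sum fun i _ => ?_
    rw [one_div_pow]
    have h2 : (2 : ℝ) ^ i ≤ tow i := by exact_mod_cast two_pow_le_tow i
    exact one_div_le_one_div_of_le (by positivity) h2
  have h3 : ∑ i ∈ Finset.range L, (1 / 2 : ℝ) ^ i ≤ 2 := by
    rw [geom_sum_eq (by norm_num)]
    have : (0 : ℝ) < (1 / 2) ^ L := by positivity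
    rw [div_le_iff_of_neg (by norm_num)]
    linarith
  exact h1.trans h3

/-- the easy pairs: at most a quarter of all pairs, and every `A × B` contains a large rectangle of
easy pairs, or is small -/
lemma exists_easy (N L : ℕ) (hN : 0 < N) (hL : 0 < L) (hNL : N ≤ tow L ^ 2) :
    ∃ P : Finset (Fin N × Fin N), (P.card : ℝ) ≤ N ^ 2 / 4 ∧
      ∀ A B : Finset (Fin N), A.Nonempty → B.Nonempty →
        (A.card : ℝ) * B.card ≤ 16 * (5120 * L) * N ∨
        ∃ A' ⊆ A, ∃ B' ⊆ B, A'.Nonempty ∧ B'.Nonempty ∧ (∀ a ∈ A', ∀ b ∈ B', (a, b) ∈ P) ∧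
          (A.card : ℝ) * B.card ≤ 4 * (5120 * L) * N * (min A'.card B'.card : ℕ) := by
  obtain ⟨Λ, hΛ⟩ : ∃ Λ : ℕ, Λ = 5120 * L := ⟨_, rfl⟩
  have hΛ0 : 0 < Λ := by rw [hΛ]; positivity
  have hΛr : (Λ : ℝ) = 5120 * L := by rw [hΛ]; push_cast; rfl
  have hLr : (0 : ℝ) < L := by exact_mod_cast hL
  have hNr : (0 : ℝ) < N := by exact_mod_cast hN
  choose P hP1 hP2 using fun i j => exists_scale N Λ i j hN hΛ0
  refine ⟨(Finset.range L ×ˢ Finset.range L).biUnion (fun q => P q.1 q.2), ?_, ?_⟩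
  · have h1 : ((((Finset.range L ×ˢ Finset.range L).biUnion (fun q => P q.1 q.2)).card : ℕ) : ℝ) ≤
        ∑ q ∈ Finset.range L ×ˢ Finset.range L, ((P q.1 q.2).card : ℝ) := by
      exact_mod_cast Finset.card_biUnion_le
    refine h1.trans ?_
    have h2 : ∑ q ∈ Finset.range L ×ˢ Finset.range L, ((P q.1 q.2).card : ℝ) ≤
        ∑ q ∈ Finset.range L ×ˢ Finset.range L,
          (320 * N ^ 2 / Λ * (1 / tow q.1 + 1 / tow q.2) : ℝ) :=
      Finset.sum_le_sum fun q _ => hP1 q.1 q.2
    refine h2.trans ?_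
    rw [← Finset.mul_sum, Finset.sum_add_distrib, Finset.sum_product, Finset.sum_product_right]
    simp only [Finset.sum_const, Finset.card_range, nsmul_eq_mul]
    rw [← Finset.mul_sum]
    have h3 := sum_inv_tow L
    rw [hΛr, div_mul_eq_mul_div, div_le_div_iff₀ (by positivity) (by norm_num)]
    have h4 : (L : ℝ) * ∑ i ∈ Finset.range L, (1 / (tow i : ℝ)) ≤ L * 2 :=
      mul_le_mul_of_nonneg_left h3 hLr.le
    have h5 : (0 : ℝ) < (N : ℝ) ^ 2 := by positivity
    nlinarith
  · intro A B hA hB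
    have hscale : ∀ C : Finset (Fin N), C.Nonempty →
        ∃ i < L, N ≤ tow (i + 1) ^ 2 * C.card ∧ tow i ^ 2 * C.card ≤ N := by
      intro C hC
      have hc : 1 ≤ C.card := hC.card_pos
      have hcN : C.card ≤ N := by
        have := Finset.card_le_univ C
        rwa [Fintype.card_fin] at this
      have hex : ∃ i, N ≤ tow (i + 1) ^ 2 * C.card := by
        refine ⟨L - 1, ?_⟩
        rw [Nat.sub_add_cancel hL]
        exact hNL.trans (Nat.le_mul_of_pos_right _ hc)
      classical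
      refine ⟨Nat.find hex, ?_, Nat.find_spec hex, ?_⟩
      · have : Nat.find hex ≤ L - 1 := by
          apply Nat.find_min'
          rw [Nat.sub_add_cancel hL]
          exact hNL.trans (Nat.le_mul_of_pos_right _ hc)
        omega
      · rcases Nat.eq_zero_or_pos (Nat.find hex) with h0 | hpos
        · rw [h0, tow]; simpa using hcN
        · have h1 := Nat.find_min hex (m := Nat.find hex - 1) (by omega)
          push Not at h1
          rw [Nat.sub_add_cancel hpos] at h1
          exact h1.le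
    obtain ⟨i, hiL, hi1, hi2⟩ := hscale A hA
    obtain ⟨j, hjL, hj1, hj2⟩ := hscale B hB
    have hi2r : (tow i : ℝ) ^ 2 * A.card ≤ N := by exact_mod_cast hi2
    have hj2r : (tow j : ℝ) ^ 2 * B.card ≤ N := by exact_mod_cast hj2
    have hA0 : (0 : ℝ) ≤ A.card := Nat.cast_nonneg _
    have hB0 : (0 : ℝ) ≤ B.card := Nat.cast_nonneg _
    rw [← hΛr]
    have hΛr0 : (0 : ℝ) < Λ := by exact_mod_cast hΛ0
    by_cases h1 : 16 * (Λ * tow j ^ 2) ≤ A.card
    · by_cases h2 : 16 * (Λ * tow i ^ 2) ≤ B.card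
      · right
        obtain ⟨A', hA', B', hB', hAB, h3, h4⟩ := hP2 i j A B h1 hi1 h2 hj1
        have hA'0 : 0 < A'.card := by
          rcases Nat.eq_zero_or_pos A'.card with h | h
          · rw [h, mul_zero] at h3
            have := hA.card_pos
            omega
          · exact h
        have hB'0 : 0 < B'.card := by
          rcases Nat.eq_zero_or_pos B'.card with h | h
          · rw [h, mul_zero] at h4
            have := hB.card_pos
            omega
          · exact h
        refine ⟨A', hA', B', hB', Finset.card_pos.1 hA'0, Finset.card_pos.1 hB'0, ?_, ?_⟩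
        · intro a ha b hb
          rw [Finset.mem_biUnion]
          exact ⟨(i, j), Finset.mem_product.2 ⟨Finset.mem_range.2 hiL, Finset.mem_range.2 hjL⟩,
            hAB a ha b hb⟩
        · have h3r : (A.card : ℝ) ≤ 4 * (Λ * tow j ^ 2) * A'.card := by exact_mod_cast h3
          have h4r : (B.card : ℝ) ≤ 4 * (Λ * tow i ^ 2) * B'.card := by exact_mod_cast h4
          rcases le_total A'.card B'.card with h | h
          · rw [min_eq_left h]
            calc (A.card : ℝ) * B.card ≤ (4 * (Λ * tow j ^ 2) * A'.card) * B.card :=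
                  mul_le_mul_of_nonneg_right h3r hB0
              _ = 4 * Λ * A'.card * (tow j ^ 2 * B.card) := by ring
              _ ≤ 4 * Λ * A'.card * N := mul_le_mul_of_nonneg_left hj2r (by positivity)
              _ = _ := by ring
          · rw [min_eq_right h]
            calc (A.card : ℝ) * B.card ≤ A.card * (4 * (Λ * tow i ^ 2) * B'.card) :=
                  mul_le_mul_of_nonneg_left h4r hA0
              _ = 4 * Λ * B'.card * (tow i ^ 2 * A.card) := by ring
              _ ≤ 4 * Λ * B'.card * N := mul_le_mul_of_nonneg_left hi2r (by positivity)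
              _ = _ := by ring
      · left
        push Not at h2
        have h2r : (B.card : ℝ) ≤ 16 * (Λ * tow i ^ 2) := by exact_mod_cast h2.le
        calc (A.card : ℝ) * B.card ≤ A.card * (16 * (Λ * tow i ^ 2)) :=
              mul_le_mul_of_nonneg_left h2r hA0
          _ = 16 * Λ * (tow i ^ 2 * A.card) := by ring
          _ ≤ _ := mul_le_mul_of_nonneg_left hi2r (by positivity)
    · left
      push Not at h1
      have h1r : (A.card : ℝ) ≤ 16 * (Λ * tow j ^ 2) := by exact_mod_cast h1.le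
      calc (A.card : ℝ) * B.card ≤ (16 * (Λ * tow j ^ 2)) * B.card :=
            mul_le_mul_of_nonneg_right h1r hB0
        _ = 16 * Λ * (tow j ^ 2 * B.card) := by ring
        _ ≤ _ := mul_le_mul_of_nonneg_left hj2r (by positivity)


open scoped Classical

/-- the graph of the lower bound -/
lemma lower_graph (N L : ℕ) (hN : 2 ≤ N) (hL : 0 < L) (hNL : N ≤ tow L ^ 2) :
    ∃ G : Finset (Fin N × Fin N),
    G.Nonempty ∧ (∀ a, ∃ b, (a, b) ∈ G) ∧ (∀ b, ∃ a, (a, b) ∈ G) ∧
    (N : ℝ) / (3100000 * Real.log N * L) ≤ etaStar G / mu G := by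
  have hN0 : 0 < N := by omega
  have hNr : (2 : ℝ) ≤ N := by exact_mod_cast hN
  have hLr : (0 : ℝ) < L := by exact_mod_cast hL
  have hlog : 0.69 ≤ Real.log N := by
    have h1 := Real.log_le_log (by norm_num) hNr
    linarith [Real.log_two_gt_d9]
  obtain ⟨P, hP1, hP2⟩ := exists_easy N L hN0 hL hNL
  obtain ⟨H, hH⟩ : ∃ H : Finset (Fin N × Fin N), H = Finset.univ \ P := ⟨_, rfl⟩
  have hHmem : ∀ e, e ∈ H ↔ e ∉ P := by intro e; rw [hH]; simp
  obtain ⟨R, hRH, hR2, hR⟩ := exists_hard hN0 H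
  obtain ⟨z, hz⟩ : ∃ z : Fin N, z = ⟨0, hN0⟩ := ⟨_, rfl⟩
  obtain ⟨G, hG⟩ : ∃ G : Finset (Fin N × Fin N), ∀ e, e ∈ G ↔
      (e.1 = z ∨ e.2 = z ∨ e ∈ P ∨ e ∈ R) :=
    ⟨Finset.univ.filter (fun e => e.1 = z ∨ e.2 = z ∨ e ∈ P ∨ e ∈ R), fun e => by simp⟩
  have hRG : R ⊆ G := fun e he => (hG e).2 (Or.inr (Or.inr (Or.inr he)))
  have hHcard : 3 * (N : ℝ) ^ 2 / 4 ≤ H.card := by
    have h1 : H.card + P.card = N ^ 2 := by
      rw [hH, Finset.card_sdiff_of_subset (Finset.subset_univ _), Finset.card_univ,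
        Fintype.card_prod, Fintype.card_fin]
      have h2 : P.card ≤ N * N := by
        have := Finset.card_le_univ P
        rwa [Fintype.card_prod, Fintype.card_fin] at this
      have : N ^ 2 = N * N := sq N
      omega
    have h2 : (H.card : ℝ) + P.card = N ^ 2 := by exact_mod_cast h1
    linarith
  have hRcard : 3 * (N : ℝ) ^ 2 / 8 ≤ R.card := by
    have : (H.card : ℝ) ≤ 2 * R.card := by exact_mod_cast hR2
    linarith
  have hRne : R.Nonempty := by
    rw [← Finset.card_pos]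
    have : (0 : ℝ) < R.card := lt_of_lt_of_le (by positivity) hRcard
    exact_mod_cast this
  have hGne : G.Nonempty := hRne.mono hRG
  refine ⟨G, hGne, fun a => ⟨z, (hG _).2 (Or.inr (Or.inl rfl))⟩,
    fun b => ⟨z, (hG _).2 (Or.inl rfl)⟩, ?_⟩
  -- lower bound for etaStar
  have hstar0 : (R.card : ℝ) * (1 / (7 * Real.log N)) ≤ etaStar G := by
    refine etaStar_ge hRG hRne (by positivity) ?_
    intro S T Q hB hQ
    obtain ⟨S₀, hS₀⟩ : ∃ S₀, S₀ = S.erase z := ⟨_, rfl⟩
    obtain ⟨T₀, hT₀⟩ : ∃ T₀, T₀ = T.erase z := ⟨_, rfl⟩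
    have hsub : H ∩ S₀ ×ˢ T₀ ⊆ R := by
      intro e he
      rw [Finset.mem_inter, Finset.mem_product, hS₀, hT₀, Finset.mem_erase, Finset.mem_erase] at he
      have h1 : e ∈ G := hB.2.2 (Finset.mem_product.2 ⟨he.2.1.2, he.2.2.2⟩)
      rw [hG] at h1
      rcases h1 with h | h | h | h
      · exact absurd h he.2.1.1
      · exact absurd h he.2.2.1
      · exact absurd h ((hHmem e).1 he.1)
      · exact h
    have h1 := hR S₀ T₀ hsub
    have hS1 : 1 ≤ S.card := hB.1.card_pos
    have hT1 : 1 ≤ T.card := hB.2.1.card_pos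
    have hS1r : (1 : ℝ) ≤ S.card := by exact_mod_cast hS1
    have hT1r : (1 : ℝ) ≤ T.card := by exact_mod_cast hT1
    have h2 : ((H ∩ S₀ ×ˢ T₀).card : ℝ) * Real.log 2 ≤
        3 + ((S.card : ℝ) + T.card) * Real.log N := by
      have h3 := Real.log_le_log (by positivity) h1
      rw [Real.log_pow, Real.log_mul (by norm_num) (by positivity), Real.log_pow] at h3
      have h4 : Real.log 18 ≤ 3 := by
        rw [Real.log_le_iff_le_exp (by norm_num)]
        have h5 : Real.exp 3 = Real.exp 1 ^ 3 := by rw [← Real.exp_nat_mul]; norm_num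
        have h6 := Real.exp_one_gt_d9
        rw [h5]
        have h7 : (2.7182818283 : ℝ) ^ 3 ≤ Real.exp 1 ^ 3 :=
          pow_le_pow_left₀ (by norm_num) h6.le 3
        have h8 : (18 : ℝ) ≤ (2.7182818283 : ℝ) ^ 3 := by norm_num
        linarith
      have h5 : ((S₀.card + T₀.card : ℕ) : ℝ) ≤ (S.card : ℝ) + T.card := by
        have : S₀.card + T₀.card ≤ S.card + T.card := by
          rw [hS₀, hT₀]
          exact Nat.add_le_add (Finset.card_erase_le) (Finset.card_erase_le)
        exact_mod_cast this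
      have h6 : ((S₀.card + T₀.card : ℕ) : ℝ) * Real.log N ≤
          ((S.card : ℝ) + T.card) * Real.log N :=
        mul_le_mul_of_nonneg_right h5 (by linarith)
      linarith
    have h7 : Q ⊆ (H ∩ S₀ ×ˢ T₀) ∪ ({z} ×ˢ T ∪ S ×ˢ {z}) := by
      intro e he
      have he' := hQ e he
      rw [Finset.mem_union, Finset.mem_union, Finset.mem_inter, Finset.mem_product,
        Finset.mem_product, Finset.mem_product, Finset.mem_singleton, Finset.mem_singleton,
        hS₀, hT₀, Finset.mem_erase, Finset.mem_erase]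
      by_cases h8 : e.1 = z
      · exact Or.inr (Or.inl ⟨h8, he'.2.2⟩)
      · by_cases h9 : e.2 = z
        · exact Or.inr (Or.inr ⟨he'.2.1, h9⟩)
        · exact Or.inl ⟨hRH he'.1, ⟨h8, he'.2.1⟩, ⟨h9, he'.2.2⟩⟩
    have h8 := (Finset.card_le_card h7).trans ((Finset.card_union_le _ _).trans
      (Nat.add_le_add_left (Finset.card_union_le _ _) _))
    rw [Finset.card_product, Finset.card_product, Finset.card_singleton, one_mul, mul_one] at h8
    have h9 : (Q.card : ℝ) ≤ (H ∩ S₀ ×ˢ T₀).card + (T.card + S.card) := by exact_mod_cast h8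
    have hl2 : 0.69 < Real.log 2 := by linarith [Real.log_two_gt_d9]
    have hQ0 : (0 : ℝ) ≤ ((H ∩ S₀ ×ˢ T₀).card : ℝ) := Nat.cast_nonneg _
    have h10 : ((H ∩ S₀ ×ˢ T₀).card : ℝ) * 0.69 ≤
        3 + ((S.card : ℝ) + T.card) * Real.log N := by nlinarith
    nlinarith
  have hstar : 3 * (N : ℝ) ^ 2 / 8 * (1 / (7 * Real.log N)) ≤ etaStar G := by
    refine le_trans ?_ hstar0
    exact mul_le_mul_of_nonneg_right hRcard (by positivity)
  -- upper bound for mu
  have hmu : mu G ≤ 163840 * L * N := by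
    refine mu_le hGne _ ?_
    intro A B Q hQG hQne hQ
    obtain ⟨e, he⟩ := hQne
    have hkap : 1 / 2 ≤ kappa G A B := kappa_half' (hQG he) (hQ e he).1 (hQ e he).2
    have hle : (Q.card : ℝ) ≤ (A.card : ℝ) * B.card := by
      have h1 : Q ⊆ A ×ˢ B := fun e he => Finset.mem_product.2 (hQ e he)
      have h2 := Finset.card_le_card h1
      rw [Finset.card_product] at h2
      exact_mod_cast h2
    refine hle.trans ?_
    have hLN : 0 < (L : ℝ) * N := by positivity
    rcases hP2 A B ⟨_, (hQ e he).1⟩ ⟨_, (hQ e he).2⟩ with h | ⟨A', hA', B', hB', hA'n, hB'n, h1, h2⟩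
    · refine h.trans ?_
      nlinarith
    · have hbi : IsBiclique G A' B' := by
        refine ⟨hA'n, hB'n, fun e he => ?_⟩
        rw [Finset.mem_product] at he
        exact (hG e).2 (Or.inr (Or.inr (Or.inl (h1 e.1 he.1 e.2 he.2))))
      have h3 := kappa_ge hA' hB' hbi
      have h4 := harm_ge_min _ _ hA'n.card_pos hB'n.card_pos
      refine h2.trans ?_
      have h5 : ((min A'.card B'.card : ℕ) : ℝ) ≤ 2 * kappa G A B := by linarith
      nlinarith
  have hmupos : 0 < mu G := mu_pos hGne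
  rw [div_le_div_iff₀ (by positivity) hmupos]
  calc (N : ℝ) * mu G ≤ N * (163840 * L * N) := mul_le_mul_of_nonneg_left hmu (by linarith)
    _ ≤ (3 * (N : ℝ) ^ 2 / 8 * (1 / (7 * Real.log N))) * (3100000 * Real.log N * L) := by
        have hl : Real.log N ≠ 0 := by positivity
        have e : (3 * (N : ℝ) ^ 2 / 8 * (1 / (7 * Real.log N))) * (3100000 * Real.log N * L) =
          (3 * 3100000 / 56) * ((N : ℝ) ^ 2 * L) := by field_simp; ring
        rw [e]
        have : 0 < (N : ℝ) ^ 2 * L := by positivity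
        nlinarith
    _ ≤ _ := mul_le_mul_of_nonneg_right hstar (by positivity)

/-- the lower bound for `g`, in terms of the height of the tower -/
theorem g_lower (n L : ℕ) (hn : 4 ≤ n) (hL : 0 < L) (hnL : n ≤ tow L) :
    (n : ℝ) / (9300000 * Real.log n * L) ≤ g n := by
  have hbdd : ∀ x ∈ {x : ℝ | ∃ (α β : Type) (_ : Fintype α) (_ : Fintype β) (G : Finset (α × β)),
      G.Nonempty ∧ (∀ a, ∃ b, (a, b) ∈ G) ∧ (∀ b, ∃ a, (a, b) ∈ G) ∧
      Fintype.card α + Fintype.card β ≤ n ∧ x = etaStar G / mu G}, x ≤ n / 2 := by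
    rintro x ⟨α, β, _, _, G, hG, -, -, hcard, rfl⟩
    exact ratio_le hG hcard
  obtain ⟨N, hNdef⟩ : ∃ N : ℕ, N = n / 2 := ⟨_, rfl⟩
  have hN2 : 2 ≤ N := by omega
  have hNL : N ≤ tow L ^ 2 := by
    have h1 := one_le_tow L
    have h2 : tow L ≤ tow L ^ 2 := Nat.le_self_pow (by norm_num) _
    omega
  obtain ⟨G, hG, hi1, hi2, hle⟩ := lower_graph N L hN2 hL hNL
  have hmem : etaStar G / mu G ∈ {x : ℝ | ∃ (α β : Type) (_ : Fintype α) (_ : Fintype β)
      (G : Finset (α × β)),
      G.Nonempty ∧ (∀ a, ∃ b, (a, b) ∈ G) ∧ (∀ b, ∃ a, (a, b) ∈ G) ∧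
      Fintype.card α + Fintype.card β ≤ n ∧ x = etaStar G / mu G} := by
    refine ⟨Fin N, Fin N, inferInstance, inferInstance, G, hG, hi1, hi2, ?_, rfl⟩
    rw [Fintype.card_fin]; omega
  refine le_trans ?_ (le_csSup ⟨_, hbdd⟩ hmem)
  refine le_trans ?_ hle
  have hLr : (0 : ℝ) < L := by exact_mod_cast hL
  have h1 : (n : ℝ) ≤ 3 * N := by
    have : n ≤ 3 * N := by omega
    exact_mod_cast this
  have hNr : (2 : ℝ) ≤ N := by exact_mod_cast hN2
  have h2 : 0 < Real.log N := Real.log_pos (by linarith)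
  have h3 : Real.log N ≤ Real.log n := by
    apply Real.log_le_log (by linarith)
    have : N ≤ n := by omega
    exact_mod_cast this
  have h4 : 0 < Real.log n := lt_of_lt_of_le h2 h3
  rw [div_le_div_iff₀ (by positivity) (by positivity)]
  calc (n : ℝ) * (3100000 * Real.log N * L) ≤ (3 * N) * (3100000 * Real.log n * L) := by
        apply mul_le_mul h1 _ (by positivity) (by positivity)
        apply mul_le_mul_of_nonneg_right _ hLr.le
        linarith
    _ = _ := by ring

end Pool.Agent.BG73
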