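import Pool.Agent.BG73.Final
import Pool.Agent.LibBG45.Upper

/-
The exact order of growth of g(n).
-/

set_option autoImplicit false

namespace Pool.Agent.BG73

open scoped Classical
open Pool.Agent.H59.Biclique

lemma tow_eq (k : ℕ) : Pool.Agent.LibBG45.tow k = tow k := by
  induction k with
  | zero => rfl
  | succ k ih => rw [Pool.Agent.LibBG45.tow, tow, ih]

lemma logStar_large (k : ℕ) : ∃ n0 : ℕ, ∀ n : ℕ, n0 ≤ n → 0 < n → k + 1 ≤ logStar n := by
  refine ⟨tow (k + 3), fun n hn hn0 => ?_⟩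
  by_contra hcon
  push Not at hcon
  have h1 := lt_tow_of_logStar_le (k := k) (x := (n : ℝ)) (by omega) (by exact_mod_cast hn0)
  have h2 : n < tow (k + 3) := by exact_mod_cast h1
  omega

theorem upper : UpperStatement := by
  obtain ⟨n0, hn0⟩ := logStar_large 51
  refine ⟨41000, n0 + 2, ?_⟩
  intro n hn α β _ _ G E hcard hE hne
  have hn1 : (1 : ℝ) < n := by
    have : 1 < n := by omega
    exact_mod_cast this
  have hL : 52 ≤ logStar n := hn0 n (by omega) (by omega)
  obtain ⟨L, hLdef⟩ : ∃ L : ℕ, L = logStar n := ⟨_, rfl⟩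
  rw [← hLdef] at hL ⊢
  obtain ⟨J, hJdef⟩ : ∃ J : ℕ, J = (L - 2) / 5 := ⟨_, rfl⟩
  have hJ : 10 ≤ J := by omega
  have hJL : L ≤ 10 * J := by omega
  have htow : Pool.Agent.LibBG45.tow (5 * J + 1) ≤ n := by
    rw [tow_eq]
    have h1 := tow_le_of (5 * J + 1) (n : ℝ) (by omega)
    exact_mod_cast h1
  have hmain := Pool.Agent.LibBG45.upper_core n J hJ htow G E hE hne hcard
  clear htow
  have hGne : G.Nonempty := hne.mono hE
  have hmu := mu_pos hGne
  have hlog : 0 < Real.log n := Real.log_pos hn1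
  have hLr : (52 : ℝ) ≤ L := by exact_mod_cast hL
  have hJr : (10 : ℝ) ≤ J := by exact_mod_cast hJ
  have hJLr : (L : ℝ) ≤ 10 * J := by exact_mod_cast hJL
  have hn0' : (0 : ℝ) < n := by linarith
  have h1 : (E.card : ℝ) * eta G E ≤ 4100 * n * mu G / (J * Real.log n) := by
    rw [le_div_iff₀ (by positivity)]
    exact hmain
  refine h1.trans ?_
  rw [div_le_iff₀ (by positivity)]
  have h2 : 41000 * ((n : ℝ) / (Real.log n * L)) * mu G * (J * Real.log n) =
      4100 * n * mu G * (10 * J / L) := by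
    field_simp
    ring
  rw [h2]
  have h3 : 1 ≤ 10 * (J : ℝ) / L := by
    rw [one_le_div (by linarith)]
    exact hJLr
  have h4 : 0 ≤ 4100 * (n : ℝ) * mu G := by positivity
  nlinarith

theorem main : ∃ c C : ℝ, 0 < c ∧ 0 < C ∧ ∀ n : ℕ, 2 ≤ n →
    c * (n / (Real.log n * logStar n)) ≤ g n ∧ g n ≤ C * (n / (Real.log n * logStar n)) :=
  final_of_upper upper

end Pool.Agent.BG73
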