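import Pool.Agent.BG73.Lower

/-
The iterated logarithm (natural base) and towers of twos.
-/

set_option autoImplicit false

namespace Pool.Agent.BG73

/-- the iterated logarithm: the least `k` such that the `k`-fold natural logarithm of `x` is
at most `1` -/
noncomputable def logStar (x : ℝ) : ℕ := sInf {k : ℕ | Real.log^[k] x ≤ 1}

lemma iter_exists (x : ℝ) : ∃ k : ℕ, Real.log^[k] x ≤ 1 := by
  by_contra hcon
  push Not at hcon
  have h1 : ∀ k : ℕ, Real.log^[k] x ≤ x - k := by
    intro k
    induction k with
    | zero => simp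
    | succ k ih =>
      rw [Function.iterate_succ_apply']
      have h2 := Real.log_le_sub_one_of_pos (lt_trans zero_lt_one (hcon k))
      push_cast
      linarith
  obtain ⟨k, hk⟩ := exists_nat_gt x
  have := h1 k
  have := hcon k
  linarith

lemma logStar_spec (x : ℝ) : Real.log^[logStar x] x ≤ 1 := Nat.sInf_mem (iter_exists x)

lemma logStar_le_of {x : ℝ} {k : ℕ} (h : Real.log^[k] x ≤ 1) : logStar x ≤ k := Nat.sInf_le h

lemma logStar_of_le_one {x : ℝ} (h : x ≤ 1) : logStar x = 0 := by
  have : logStar x ≤ 0 := logStar_le_of (by simpa using h)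
  omega

lemma logStar_of_one_lt {x : ℝ} (h : 1 < x) : logStar x = logStar (Real.log x) + 1 := by
  have h1 : logStar x ≤ logStar (Real.log x) + 1 := by
    apply logStar_le_of
    rw [Function.iterate_succ_apply]
    exact logStar_spec _
  have h2 : logStar x ≠ 0 := by
    intro h0
    have := logStar_spec x
    rw [h0, Function.iterate_zero, id] at this
    linarith
  obtain ⟨k, hk⟩ := Nat.exists_eq_succ_of_ne_zero h2
  have h3 : logStar (Real.log x) ≤ k := by
    apply logStar_le_of
    have := logStar_spec x
    rw [hk, Nat.succ_eq_add_one, Function.iterate_succ_apply] at this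
    exact this
  omega

lemma logStar_pos {x : ℝ} (h : 1 < x) : 1 ≤ logStar x := by
  rw [logStar_of_one_lt h]; omega

lemma logStar_mono {x y : ℝ} (h : x ≤ y) : logStar x ≤ logStar y := by
  obtain ⟨k, hk⟩ : ∃ k, k = logStar y := ⟨_, rfl⟩
  rw [← hk]
  induction k generalizing x y with
  | zero =>
    have : y ≤ 1 := by
      by_contra hcon
      push Not at hcon
      have := logStar_pos hcon
      omega
    rw [logStar_of_le_one (h.trans this)]
  | succ k ih =>
    by_cases hx : x ≤ 1
    · rw [logStar_of_le_one hx]; omega
    · push Not at hx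
      have hy : 1 < y := lt_of_lt_of_le hx h
      rw [logStar_of_one_lt hx]
      rw [logStar_of_one_lt hy] at hk
      have := ih (Real.log_le_log (by linarith) h) (by omega)
      omega

lemma lt_of_logStar_lt {x y : ℝ} (h : logStar x < logStar y) : x < y := by
  by_contra hcon
  push Not at hcon
  have := logStar_mono hcon
  omega

lemma sixteen_le_tow (k : ℕ) : 16 ≤ tow (k + 3) := by
  induction k with
  | zero => simp [tow]
  | succ k ih =>
    rw [show k + 1 + 3 = (k + 3) + 1 by ring, tow]
    exact ih.trans (Nat.lt_two_pow_self).le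

lemma le_tow (k : ℕ) : ∀ x : ℝ, logStar x ≤ k → 4 * x ≤ tow (k + 3) := by
  induction k with
  | zero =>
    intro x hx
    have h1 : x ≤ 1 := by
      by_contra hcon
      push Not at hcon
      have := logStar_pos hcon
      omega
    have h2 : (16 : ℝ) ≤ tow (0 + 3) := by exact_mod_cast sixteen_le_tow 0
    linarith
  | succ k ih =>
    intro x hx
    have h2 : (16 : ℝ) ≤ tow (k + 1 + 3) := by exact_mod_cast sixteen_le_tow (k + 1)
    by_cases h1 : x ≤ 1
    · linarith
    · push Not at h1
      rw [logStar_of_one_lt h1] at hx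
      have h3 := ih (Real.log x) (by omega)
      have h4 : (16 : ℝ) ≤ tow (k + 3) := by exact_mod_cast sixteen_le_tow k
      rw [show k + 1 + 3 = (k + 3) + 1 by ring, tow]
      push_cast
      have hl2 : 0.69 < Real.log 2 := by linarith [Real.log_two_gt_d9]
      have hl2' : Real.log 2 < 0.7 := by linarith [Real.log_two_lt_d9]
      have hlx : 0 ≤ Real.log x := Real.log_nonneg h1.le
      have h5 : (4 : ℝ) * x = Real.exp (2 * Real.log 2 + Real.log x) := by
        rw [Real.exp_add, Real.exp_log (by linarith), mul_comm 2, Real.exp_mul,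
          Real.exp_log (by norm_num)]
        norm_num
      have h6 : (2 : ℝ) ^ tow (k + 3) = Real.exp (Real.log 2 * tow (k + 3)) := by
        rw [mul_comm, Real.exp_nat_mul, Real.exp_log (by norm_num)]
      rw [h5, h6]
      apply Real.exp_le_exp.2
      nlinarith

lemma logStar_two_pow {x : ℝ} (hx : 0 ≤ x) : logStar (2 ^ x) ≤ logStar x + 1 := by
  by_cases h : (2 : ℝ) ^ x ≤ 1
  · rw [logStar_of_le_one h]; omega
  · push Not at h
    rw [logStar_of_one_lt h]
    have h1 : Real.log ((2 : ℝ) ^ x) ≤ x := by
      rw [Real.log_rpow (by norm_num)]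
      have : Real.log 2 < 1 := by linarith [Real.log_two_lt_d9]
      nlinarith
    have := logStar_mono h1
    omega

lemma logStar_le_self {x : ℝ} (hx : 0 ≤ x) : (logStar x : ℝ) ≤ x := by
  obtain ⟨k, hk⟩ : ∃ k, k = logStar x := ⟨_, rfl⟩
  rw [← hk]
  induction k generalizing x with
  | zero => simpa using hx
  | succ k ih =>
    have h1 : 1 < x := by
      by_contra hcon
      push Not at hcon
      rw [logStar_of_le_one hcon] at hk
      omega
    rw [logStar_of_one_lt h1] at hk
    have h2 := ih (Real.log_nonneg h1.le) (by omega)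
    have h3 := Real.log_le_sub_one_of_pos (show 0 < x by linarith)
    push_cast
    linarith

lemma tow_le_of (k : ℕ) : ∀ x : ℝ, k + 1 ≤ logStar x → (tow k : ℝ) ≤ x := by
  induction k with
  | zero =>
    intro x hx
    have h1 : 1 < x := by
      by_contra hcon
      push Not at hcon
      rw [logStar_of_le_one hcon] at hx
      omega
    simp only [tow]
    push_cast
    exact h1.le
  | succ k ih =>
    intro x hx
    have h1 : 1 < x := by
      by_contra hcon
      push Not at hcon
      rw [logStar_of_le_one hcon] at hx
      omega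
    rw [logStar_of_one_lt h1] at hx
    have h2 := ih (Real.log x) (by omega)
    rw [tow]
    push_cast
    have h3 : (2 : ℝ) ^ tow k = Real.exp (Real.log 2 * tow k) := by
      rw [mul_comm, Real.exp_nat_mul, Real.exp_log (by norm_num)]
    rw [h3]
    have h4 : Real.log 2 * tow k ≤ Real.log x := by
      have h5 : Real.log 2 < 1 := by linarith [Real.log_two_lt_d9]
      have h6 : (0 : ℝ) ≤ tow k := Nat.cast_nonneg _
      nlinarith
    calc Real.exp (Real.log 2 * tow k) ≤ Real.exp (Real.log x) := Real.exp_le_exp.2 h4
      _ = x := Real.exp_log (by linarith)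

/-- number of terms of the tower below `x` compared with `logStar x` -/
lemma lt_tow_of_logStar_le {k : ℕ} {x : ℝ} (h : logStar x ≤ k) (hx : 0 < x) :
    x < tow (k + 3) := by
  have := le_tow k x h
  linarith

end Pool.Agent.BG73
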